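import Mathlib
import Pool.Agent.Helper74.CA.Lib

/-!
MP_cb0591_al, module EIG: the first component is spanned by eigenvectors.
-/

set_option autoImplicit false

namespace Pool.Agent.Helper74.CA

section
variable {k : Type} [Field k] {L : Type} [LieRing L] [LieAlgebra k L] {n : ℕ}

/-- the component of `x` -/
def eigY (d : LB k L n) (u : k) (x : L) : L := ∑ i ∈ Finset.range n, u ^ i • (d.a ^ i) x

theorem eig_pow (d : LB k L n) (i : ℕ) (u : L) (hu : u ∈ d.G 1) : (d.a ^ i) u ∈ d.G 1 := by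
  induction i with
  | zero => simpa using hu
  | succ i ih =>
    rw [pow_succ']
    exact d.aG 1 _ ih

theorem eig_mem (d : LB k L n) (u : k) (x : L) (hx : x ∈ d.G 1) : eigY d u x ∈ d.G 1 :=
  Submodule.sum_mem _ fun i _ => Submodule.smul_mem _ _ (eig_pow d i x hx)

theorem eig_a (d : LB k L n) (u : k) (hu : u ^ n = 1) (x : L) :
    u • d.a (eigY d u x) = eigY d u x := by
  unfold eigY
  rw [map_sum, Finset.smul_sum]
  have h1 : ∀ i, u • d.a (u ^ i • (d.a ^ i) x) = u ^ (i + 1) • (d.a ^ (i + 1)) x := by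
    intro i
    rw [map_smul, smul_smul, pow_succ' (d.a), Module.End.mul_apply, pow_succ']
  simp only [h1]
  have h2 := Finset.sum_range_succ (fun i => u ^ i • (d.a ^ i) x) n
  have h3 := Finset.sum_range_succ' (fun i => u ^ i • (d.a ^ i) x) n
  rw [h2, d.an, hu, pow_zero, pow_zero] at h3
  exact (add_right_cancel h3).symm

theorem eig_sum (d : LB k L n) (w : k) (hw : IsPrimitiveRoot w n) (hn : 0 < n) (x : L) :
    ∑ j ∈ Finset.range n, eigY d (w ^ j) x = (n : k) • x := by
  unfold eigY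
  rw [Finset.sum_comm]
  have h1 : ∀ i ∈ Finset.range n, ∑ j ∈ Finset.range n, (w ^ j) ^ i • (d.a ^ i) x =
      if i = 0 then (n : k) • x else 0 := by
    intro i hi
    rw [← Finset.sum_smul]
    by_cases h0 : i = 0
    · subst h0
      simp
    · rw [if_neg h0]
      have h2 : ∀ j, (w ^ j) ^ i = (w ^ i) ^ j := fun j => by rw [← pow_mul, ← pow_mul, mul_comm]
      simp only [h2]
      have h3 : w ^ i ≠ 1 := by
        intro h
        have := hw.dvd_of_pow_eq_one i h
        have hlt := Finset.mem_range.1 hi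
        exact h0 (Nat.eq_zero_of_dvd_of_lt this hlt)
      have h4 : (w ^ i - 1) * ∑ j ∈ Finset.range n, (w ^ i) ^ j = 0 := by
        rw [mul_geom_sum, ← pow_mul, mul_comm, pow_mul, hw.pow_eq_one, one_pow, sub_self]
      have h5 := (mul_eq_zero.1 h4).resolve_left (sub_ne_zero.2 h3)
      rw [h5, zero_smul]
  rw [Finset.sum_congr rfl h1, Finset.sum_ite_eq' (Finset.range n) 0]
  rw [if_pos (Finset.mem_range.2 hn)]

end

theorem st_EIG : ST_EIG := by
  intro k _ _ L _ _ n d x hx
  have : NeZero (n : k) := ⟨d.n0⟩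
  have hn : 0 < n := by
    rcases Nat.eq_zero_or_pos n with h | h
    · exfalso
      apply d.n0
      rw [h, Nat.cast_zero]
    · exact h
  obtain ⟨w, hw⟩ := HasEnoughRootsOfUnity.exists_primitiveRoot k n
  have h1 := eig_sum d w hw hn x
  have h2 : x = (n : k)⁻¹ • ∑ j ∈ Finset.range n, eigY d (w ^ j) x := by
    rw [h1, smul_smul, inv_mul_cancel₀ d.n0, one_smul]
  rw [h2]
  refine Submodule.smul_mem _ _ (Submodule.sum_mem _ fun j _ => ?_)
  have hu : (w ^ j) ^ n = 1 := by rw [← pow_mul, mul_comm, pow_mul, hw.pow_eq_one, one_pow]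
  have hu0 : w ^ j ≠ 0 := by
    intro h
    rw [h, zero_pow hn.ne'] at hu
    exact zero_ne_one hu
  have ha := eig_a d (w ^ j) hu x
  have ha' : d.a (eigY d (w ^ j) x) = (w ^ j)⁻¹ • eigY d (w ^ j) x := by
    conv_rhs => rw [← ha]
    rw [smul_smul, inv_mul_cancel₀ hu0, one_smul]
  by_cases h0 : (w ^ j)⁻¹ = 1
  · rw [h0, one_smul] at ha'
    rw [d.fix _ (eig_mem d (w ^ j) x hx) ha']
    exact Submodule.zero_mem _
  · exact Submodule.subset_span ⟨(w ^ j)⁻¹, h0, eig_mem d (w ^ j) x hx, ha'⟩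

end Pool.Agent.Helper74.CA
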