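import Mathlib
import Pool.Agent.Helper74.CA.Lib

/-!
MP_cb0591_al, module SPAN: weight seven is spanned by products of eigenvectors for `-1`.
-/

set_option autoImplicit false

namespace Pool.Agent.Helper74.CA

section
variable {k : Type} [Field k] {L : Type} [LieRing L] [LieAlgebra k L] {n : ℕ}

/-- left-normed products of eigenvectors of weight one with eigenvalues different from one -/
def spanLN (d : LB k L n) : ℕ → L → Prop
  | 0, _ => False
  | 1, v => ∃ ζ : k, ζ ≠ 1 ∧ Ev d 1 ζ v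
  | j + 2, z => ∃ u v : L, spanLN d (j + 1) u ∧ (∃ ζ : k, ζ ≠ 1 ∧ Ev d 1 ζ v) ∧ z = ⁅u, v⁆

theorem span_lie (d : LB k L n) (j : ℕ) (u v : L)
    (hu : u ∈ Submodule.span k {z | spanLN d (j + 1) z})
    (hv : v ∈ Submodule.span k {v | ∃ ζ : k, ζ ≠ 1 ∧ Ev d 1 ζ v}) :
    ⁅u, v⁆ ∈ Submodule.span k {z | spanLN d (j + 2) z} := by
  induction hu using Submodule.span_induction with
  | mem u hu =>
    induction hv using Submodule.span_induction with
    | mem v hv => exact Submodule.subset_span ⟨u, v, hu, hv, rfl⟩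
    | zero => rw [lie_zero]; exact Submodule.zero_mem _
    | add v w _ _ h1 h2 => rw [lie_add]; exact Submodule.add_mem _ h1 h2
    | smul r v _ h => rw [lie_smul]; exact Submodule.smul_mem _ _ h
  | zero => rw [zero_lie]; exact Submodule.zero_mem _
  | add u w _ _ h1 h2 => rw [add_lie]; exact Submodule.add_mem _ h1 h2
  | smul r u _ h => rw [smul_lie]; exact Submodule.smul_mem _ _ h

theorem span_all (d : LB k L n)
    (h1 : ∀ x ∈ d.G 1, x ∈ Submodule.span k {v | ∃ ζ : k, ζ ≠ 1 ∧ Ev d 1 ζ v}) (j : ℕ) :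
    ∀ x ∈ d.G (j + 1), x ∈ Submodule.span k {z | spanLN d (j + 1) z} := by
  induction j with
  | zero => exact h1
  | succ j ih =>
    intro x hx
    have h2 := d.gen (j + 1) (by omega) x hx
    have h3 : Submodule.span k {z | ∃ u ∈ d.G (j + 1), ∃ v ∈ d.G 1, z = ⁅u, v⁆} ≤
        Submodule.span k {z | spanLN d (j + 2) z} := by
      rw [Submodule.span_le]
      rintro _ ⟨u, hu, v, hv, rfl⟩
      exact span_lie d j u v (ih u hu) (h1 v hv)
    exact h3 h2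

end

theorem st_SPAN (h1 : ST_EIG) (h2 : ST_M5) (h3 : ST_YR) : ST_SPAN := by
  intro k _ _ L _ _ n d x hx
  have hall := span_all d (h1 k L n d) 6 x hx
  have h5 : ∀ z, spanLN d 5 z → z = 0 ∨ PP d 5 z := by
    rintro z ⟨_, v5, ⟨_, v4, ⟨_, v3, ⟨v1, v2, ⟨z1, hz1, e1⟩, ⟨z2, hz2, e2⟩, rfl⟩, ⟨z3, hz3, e3⟩,
      rfl⟩, ⟨z4, hz4, e4⟩, rfl⟩, ⟨z5, hz5, e5⟩, rfl⟩
    by_cases h0 : ⁅⁅⁅⁅v1, v2⁆, v3⁆, v4⁆, v5⁆ = 0
    · exact Or.inl h0
    · obtain ⟨a1, a2, a3, a4, a5⟩ := h2 k L n d v1 v2 v3 v4 v5 z1 z2 z3 z4 z5 hz1 hz2 hz3 hz4 hz5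
        e1 e2 e3 e4 e5 h0
      subst a1 a2 a3 a4 a5
      exact Or.inr (PP.succ 4 _ _ (PP.succ 3 _ _ (PP.three v1 v2 v3 e1 e2 e3) e4) e5)
  have hs : ∀ j u v, (u = 0 ∨ PP d j u) → (∃ ζ : k, ζ ≠ 1 ∧ Ev d 1 ζ v) →
      ⁅u, v⁆ = 0 ∨ PP d (j + 1) ⁅u, v⁆ := by
    rintro j u v (hu | hu) ⟨ζ, hζ, hv⟩
    · left
      rw [hu, zero_lie]
    · by_cases hm : ζ = -1
      · subst hm
        exact Or.inr (PP.succ j u v hu hv)
      · exact Or.inl (h3 k L n d j u v 1 ζ hu le_rfl hζ hm hv)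
  have h6 : ∀ z, spanLN d 6 z → z = 0 ∨ PP d 6 z := by
    rintro z ⟨u, v, hu, hv, rfl⟩
    exact hs 5 u v (h5 u hu) hv
  have h7 : ∀ z, spanLN d 7 z → z = 0 ∨ PP d 7 z := by
    rintro z ⟨u, v, hu, hv, rfl⟩
    exact hs 6 u v (h6 u hu) hv
  have hle : Submodule.span k {z | spanLN d 7 z} ≤ Submodule.span k {z | PP d 7 z} := by
    rw [Submodule.span_le]
    intro z hz
    rcases h7 z hz with h | h
    · rw [h]
      exact Submodule.zero_mem _
    · exact Submodule.subset_span h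
  exact hle hall

end Pool.Agent.Helper74.CA
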